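import Pool.Agent.W859.AK.Stm

/-! AK-WD: existence of the configuration `W1`. -/

set_option autoImplicit false
set_option linter.unusedSectionVars false

open Finset
open scoped Classical

namespace Pool.Agent.W932.AK
open Pool.Agent.W904.AK Pool.Agent.W859.AK

theorem WD_exists : S_WD := by
  intro Ω _ W _ _ p X D hp hDX
  have hDt : ∀ t : ℚ, Det p D (pos X D t) := by
    intro t x y hx hy h
    show X x + t • D x = X y + t • D y
    rw [hDX x y hx hy h, h]
  have hXX : ∀ c, im p X c = im p X c := fun _ => rfl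
  let pr : Ω × Ω → ℝ := pair p X
  have hpr : IsLaw pr := glue_law hp hp hXX
  let u : Ω × Ω → W × W := fun z => (D z.1, D z.2)
  let f : Ω × Ω → W × W := fun z => (pos X D 1 z.1, pos X D 1 z.2)
  let g : Ω × Ω → W × W := fun z => (pos X D (-1) z.1, pos X D (-1) z.2)
  have hDu : ∀ t : ℚ, Det pr u (fun z => (pos X D t z.1, pos X D t z.2)) := by
    intro t y y' hy hy' h
    obtain ⟨-, h1, h2⟩ := glue_supp hy
    obtain ⟨-, h3, h4⟩ := glue_supp hy'
    exact Prod.ext (hDt t _ _ h1 h3 (congrArg Prod.fst h)) (hDt t _ _ h2 h4 (congrArg Prod.snd h))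
  have huf : Det pr u f := hDu 1
  have hug : Det pr u g := hDu (-1)
  have hHu : H pr u = 2 * H p D - H p X := by
    have := H_glue hp hp hXX hDX hDX
    have h2 : H pr u = H p D + H p D - H p X := this
    rw [h2]; ring
  have hfst : im pr Prod.fst = p := glue_fst hp hXX
  have hsnd : im pr Prod.snd = p := glue_snd hp hXX
  -- first gluing
  have hff : ∀ c, im pr f c = im pr f c := fun _ => rfl
  let q1 : (Ω × Ω) × (Ω × Ω) → ℝ := glue pr pr f f
  have hq1 : IsLaw q1 := glue_law hpr hpr hff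
  have hq1f : im q1 Prod.fst = pr := glue_fst hpr hff
  have hq1s : im q1 Prod.snd = pr := glue_snd hpr hff
  let g' : (Ω × Ω) × (Ω × Ω) → W × W := fun w => g w.1
  have hgg : ∀ c, im q1 g' c = im pr g c := fun c => im_glue_fst hpr hff g c
  let q : ((Ω × Ω) × (Ω × Ω)) × (Ω × Ω) → ℝ := glue q1 pr g' g
  have hq : IsLaw q := glue_law hq1 hpr hgg
  have hqf : im q Prod.fst = q1 := glue_fst hq1 hgg
  have hqs : im q Prod.snd = pr := glue_snd hpr hgg
  let L : Fin 6 → ((Ω × Ω) × (Ω × Ω)) × (Ω × Ω) → Ω :=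
    ![fun z => z.1.1.1, fun z => z.1.1.2, fun z => z.1.2.1, fun z => z.1.2.2,
      fun z => z.2.1, fun z => z.2.2]
  have e01 : im q (fun z => z.1.1) = pr := by
    funext a
    have := im_comp q Prod.fst (fun w : (Ω × Ω) × (Ω × Ω) => w.1) a
    rw [← this, hqf]
    exact congrFun hq1f a
  have e23 : im q (fun z => z.1.2) = pr := by
    funext a
    have := im_comp q Prod.fst (fun w : (Ω × Ω) × (Ω × Ω) => w.2) a
    rw [← this, hqf]
    exact congrFun hq1s a
  have e45 : im q (fun z => z.2) = pr := hqs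
  have efst : ∀ F : ((Ω × Ω) × (Ω × Ω)) × (Ω × Ω) → Ω × Ω, im q F = pr →
      im q (fun z => (F z).1) = p := by
    intro F hF
    funext a
    have := im_comp q F Prod.fst a
    rw [← this, hF, hfst]
  have esnd : ∀ F : ((Ω × Ω) × (Ω × Ω)) × (Ω × Ω) → Ω × Ω, im q F = pr →
      im q (fun z => (F z).2) = p := by
    intro F hF
    funext a
    have := im_comp q F Prod.snd a
    rw [← this, hF, hsnd]
  have hq1H : H q1 (fun w => (u w.1, u w.2)) = H pr u + H pr u - H pr f :=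
    H_glue hpr hpr hff huf huf
  have hg'H : H q1 g' = pp p X D (-1) (-1) := H_glue_fst hpr hff g
  have hfH : H pr f = pp p X D 1 1 := rfl
  refine ⟨((Ω × Ω) × (Ω × Ω)) × (Ω × Ω), inferInstance, q, L, ?_⟩
  refine
    { law := hq
      mL := ?_
      m01 := e01
      m23 := e23
      m45 := e45
      i01 := ?_
      i23 := ?_
      i45 := ?_
      i02 := ?_
      i13 := ?_
      i04 := ?_
      i15 := ?_
      hQ1 := ?_
      hQ2 := ?_
      hW := ?_ }
  · intro i
    fin_cases i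
    · exact efst _ e01
    · exact esnd _ e01
    · exact efst _ e23
    · exact esnd _ e23
    · exact efst _ e45
    · exact esnd _ e45
  · intro z hz
    obtain ⟨-, h1, -⟩ := glue_supp hz
    obtain ⟨-, h3, -⟩ := glue_supp h1
    exact (glue_supp h3).1
  · intro z hz
    obtain ⟨-, h1, -⟩ := glue_supp hz
    obtain ⟨-, -, h3⟩ := glue_supp h1
    exact (glue_supp h3).1
  · intro z hz
    obtain ⟨-, -, h1⟩ := glue_supp hz
    exact (glue_supp h1).1
  · intro z hz
    obtain ⟨-, h1, -⟩ := glue_supp hz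
    obtain ⟨h3, -, -⟩ := glue_supp h1
    exact congrArg Prod.fst h3
  · intro z hz
    obtain ⟨-, h1, -⟩ := glue_supp hz
    obtain ⟨h3, -, -⟩ := glue_supp h1
    exact congrArg Prod.snd h3
  · intro z hz
    obtain ⟨h1, -, -⟩ := glue_supp hz
    exact congrArg Prod.fst h1
  · intro z hz
    obtain ⟨h1, -, -⟩ := glue_supp hz
    exact congrArg Prod.snd h1
  · -- hQ1
    have hinj : Function.Injective (fun v : (W × W) × (W × W) => (v.1.1, v.1.2, v.2.1, v.2.2)) := by
      rintro ⟨⟨a, b⟩, c, d⟩ ⟨⟨a', b'⟩, c', d'⟩ h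
      simp only [Prod.mk.injEq] at h ⊢
      exact ⟨⟨h.1, h.2.1⟩, h.2.2.1, h.2.2.2⟩
    have h1 : H q (fun z => (u z.1.1, u z.1.2)) = H q1 (fun w => (u w.1, u w.2)) :=
      H_glue_fst hq1 hgg (fun w => (u w.1, u w.2))
    have h2 := H_comp_injective q (fun z => (u z.1.1, u z.1.2)) hinj
    have h3 : H q (fun z => (D (L 0 z), D (L 1 z), D (L 2 z), D (L 3 z))) =
        H q (fun z => (u z.1.1, u z.1.2)) := h2
    rw [h3, h1, hq1H, hHu, hfH]; ring
  · -- hQ2
    have hinj : Function.Injective (fun v : (W × W) × (W × W) => (v.1.1, v.1.2, v.2.1, v.2.2)) := by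
      rintro ⟨⟨a, b⟩, c, d⟩ ⟨⟨a', b'⟩, c', d'⟩ h
      simp only [Prod.mk.injEq] at h ⊢
      exact ⟨⟨h.1, h.2.1⟩, h.2.2.1, h.2.2.2⟩
    have hd : Det q1 (fun w => u w.1) g' := Det.glue_fst hug
    have h1 : H q (fun z => (u z.1.1, u z.2)) = H q1 (fun w => u w.1) + H pr u - H q1 g' :=
      H_glue hq1 hpr hgg hd hug
    have h1' : H q1 (fun w => u w.1) = H pr u := H_glue_fst hpr hff u
    have h2 := H_comp_injective q (fun z => (u z.1.1, u z.2)) hinj
    have h3 : H q (fun z => (D (L 0 z), D (L 1 z), D (L 4 z), D (L 5 z))) =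
        H q (fun z => (u z.1.1, u z.2)) := h2
    rw [h3, h1, h1', hHu, hg'H]; ring
  · -- hW
    have hinj : Function.Injective (fun v : ((W × W) × (W × W)) × (W × W) =>
        (v.1.1.1, v.1.1.2, v.1.2.1, v.1.2.2, v.2.1, v.2.2)) := by
      rintro ⟨⟨⟨a, b⟩, c, d⟩, e, f⟩ ⟨⟨⟨a', b'⟩, c', d'⟩, e', f'⟩ h
      simp only [Prod.mk.injEq] at h ⊢
      exact ⟨⟨⟨h.1, h.2.1⟩, h.2.2.1, h.2.2.2.1⟩, h.2.2.2.2.1, h.2.2.2.2.2⟩
    have hd0 : Det q1 (fun w => u w.1) g' := Det.glue_fst hug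
    have hd : Det q1 (fun w => (u w.1, u w.2)) g' :=
      (Det.fst q1 (fun w => u w.1) (fun w => u w.2)).trans hd0
    have h1 : H q (fun z => ((u z.1.1, u z.1.2), u z.2)) =
        H q1 (fun w => (u w.1, u w.2)) + H pr u - H q1 g' :=
      H_glue hq1 hpr hgg hd hug
    have h2 := H_comp_injective q (fun z => ((u z.1.1, u z.1.2), u z.2)) hinj
    have h3 : H q (fun z => (D (L 0 z), D (L 1 z), D (L 2 z), D (L 3 z), D (L 4 z), D (L 5 z))) =
        H q (fun z => ((u z.1.1, u z.1.2), u z.2)) := h2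
    rw [h3, h1, hq1H, hHu, hg'H, hfH]; ring

end Pool.Agent.W932.AK
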